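import Pool.Agent.H.MP_866953.A

set_option autoImplicit false
open Set Filter Topology TopologicalSpace

namespace Pool.Agent.H.MP_4d09b6

theorem tri {V : Type} [AddCommGroup V] [TopologicalSpace V] [IsTopologicalAddGroup V] (j : ℕ) :
    ∀ H : ℕ → V → V, (∀ l, Continuous (H l)) → (∀ l, j ≤ l → ∀ v, H l v = 0) →
    ∃ e : (ℕ → V) ≃ₜ (ℕ → V), ∀ t l, e t l = t l - H l (t (l + 1)) := by
  induction j with
  | zero => exact fun H _ h => ⟨Homeomorph.refl _, fun t l => by simp [h l]⟩
  | succ j ih =>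
    intro H hu h
    obtain ⟨e, he⟩ := ih (fun l => H (l + 1)) (fun l => hu _) fun l hl => h _ (by omega)
    have hs : Continuous fun (u : ℕ → V) => e.symm fun l => u (l + 1) := by fun_prop
    have k : ∀ t : ℕ → V, (fun l => t (l + 1) - H (l + 1) (t (l + 1 + 1))) = e fun l => t (l + 1) :=
      fun t => funext fun l => (he (fun l => t (l + 1)) l).symm
    refine ⟨⟨⟨fun t l => t l - H l (t (l + 1)), fun u l => Nat.casesOn l
      (u 0 + H 0 (e.symm (fun l => u (l + 1)) 0)) (e.symm fun l => u (l + 1)), fun t => funext fun l => ?_,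
      fun u => funext fun l => ?_⟩, continuous_pi fun l =>
        (continuous_apply l).sub ((hu l).comp (continuous_apply _)),
      continuous_pi fun l => ?_⟩, fun _ _ => rfl⟩
    · cases l <;> simp [k]
    · cases l with
      | zero => simp
      | succ l => exact (he _ l).symm.trans (by simp)
    · cases l with
      | zero => exact (continuous_apply 0).add ((hu 0).comp ((continuous_apply 0).comp hs))
      | succ l => exact (continuous_apply l).comp hs

noncomputable def ta (l : ℕ) : ℝ := 1 / ((l : ℝ) + 1)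

theorem ta0 (l : ℕ) : 0 < ta l := by unfold ta; positivity

theorem ta1 (l : ℕ) : ta (l + 1) < ta l :=
  one_div_lt_one_div_of_lt (by positivity) (by push_cast; linarith)

noncomputable def mu (l : ℕ) : ℝ := (ta l + ta (l + 1)) / 2

noncomputable def aa (l : ℕ) (x : ℝ) : ℝ := max 0 (min 1 ((|x| - mu l) / (ta l - mu l)))

theorem mu1 (l : ℕ) : 0 < ta l - mu l := by have := ta1 l; unfold mu; linarith

theorem aa0 {l : ℕ} {x : ℝ} (h : |x| ≤ mu l) : aa l x = 0 :=
  max_eq_left ((min_le_right _ _).trans (div_nonpos_of_nonpos_of_nonneg (by linarith) (mu1 l).le))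

theorem aa1 {l : ℕ} {x : ℝ} (h : ta l ≤ |x|) : aa l x = 1 := by
  rw [aa, min_eq_left ((one_le_div (mu1 l)).2 (by linarith)), max_eq_right zero_le_one]

noncomputable def cc (l : ℕ) (v : ℕ → ℝ) (m : ℕ) : ℝ := ∑ i ∈ Finset.range m, aa l (v i)

noncomputable def gg (k l : ℕ) (v : ℕ → ℝ) (m : ℕ) : ℝ := max 0 (min 1 ((k / (l + 2) : ℕ) + 1 - cc l v m))

noncomputable def HH (k l : ℕ) (v : ℕ → ℝ) (m : ℕ) : ℝ :=
  if k ≤ l then 0 else gg k l v m * v m + (1 - gg k l v m) * max (-ta l) (min (v m) (ta l))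

theorem H_c (k l : ℕ) : Continuous (HH k l) := continuous_pi fun m => by
  unfold HH gg cc aa
  split_ifs <;> fun_prop

theorem H_A (k l : ℕ) (v : ℕ → ℝ) : {m | ta l < |HH k l v m|}.encard ≤ (k / (l + 2) + 1 : ℕ) := by
  classical
  by_contra h
  obtain ⟨T, hT, hc⟩ := exists_subset_encard_eq (k := (k / (l + 2) + 1 + 1 : ℕ))
    (by push_cast; exact Order.add_one_le_of_lt (not_le.1 h))
  have hf := finite_of_encard_eq_coe hc
  lift T to Finset ℕ using hf
  rw [encard_coe_eq_coe_finsetCard, Nat.cast_inj] at hc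
  have hn : T.Nonempty := Finset.card_pos.1 (hc ▸ Nat.succ_pos _)
  have t0 := ta0 l
  have h1 : ∀ m ∈ T, ta l ≤ |v m| ∧ cc l v m < (k / (l + 2) : ℕ) + 1 := fun m hm => by
    have h2 : ta l < |HH k l v m| := hT hm
    unfold HH at h2
    split_ifs at h2 with hk
    · simp at h2; linarith
    constructor
    · by_contra h3
      have h4 := abs_lt.1 (not_le.1 h3)
      rw [min_eq_left h4.2.le, max_eq_right h4.1.le] at h2
      rw [← add_mul, add_sub_cancel, one_mul] at h2
      exact h3 h2.le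
    · by_contra h3
      have h4 : gg k l v m = 0 := max_eq_left ((min_le_right _ _).trans (by linarith))
      rw [h4, zero_mul, zero_add, sub_zero, one_mul] at h2
      exact not_le.2 h2 (abs_le.2 ⟨le_max_left _ _, max_le (by linarith) (min_le_right _ _)⟩)
  have h2 := (h1 _ (T.max'_mem hn)).2
  have h3 : ∑ i ∈ T.erase (T.max' hn), aa l (v i) ≤ cc l v (T.max' hn) :=
    Finset.sum_le_sum_of_subset_of_nonneg (fun i hi => Finset.mem_range.2
      ((T.le_max' i (Finset.mem_of_mem_erase hi)).lt_of_ne (Finset.ne_of_mem_erase hi)))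
      fun _ _ _ => le_max_left _ _
  rw [Finset.sum_congr rfl fun i hi => aa1 (h1 i (Finset.mem_of_mem_erase hi)).1, Finset.sum_const,
    Finset.card_erase_of_mem (T.max'_mem hn), hc] at h3
  simp at h3
  linarith

theorem H_B {k l : ℕ} (hk : l < k) (v : ℕ → ℝ) (h : {m | mu l < |v m|}.encard * (l + 1 + 1 : ℕ) ≤ k)
    (m : ℕ) : HH k l v m = v m := by
  classical
  have h1 : cc l v m ≤ ((Finset.range m).filter fun i => mu l < |v i|).card := by
    rw [Finset.card_filter, Nat.cast_sum]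
    refine Finset.sum_le_sum fun i _ => ?_
    split_ifs with hi
    · rw [Nat.cast_one]
      exact max_le zero_le_one (min_le_left _ _)
    · simp [aa0 (not_lt.1 hi)]
  have h2 : ((Finset.range m).filter fun i => mu l < |v i|).card ≤ k / (l + 2) := by
    rw [Nat.le_div_iff_mul_le (by omega), ← Nat.cast_le (α := ℕ∞), Nat.cast_mul,
      ← encard_coe_eq_coe_finsetCard]
    exact (mul_le_mul_left (encard_le_encard fun i hi => (Finset.mem_filter.1 hi).2) _).trans h
  have h3 : gg k l v m = 1 := by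
    have : (((Finset.range m).filter fun i => mu l < |v i|).card : ℝ) ≤ (k / (l + 2) : ℕ) := by
      exact_mod_cast h2
    rw [gg, min_eq_left (by linarith), max_eq_right zero_le_one]
  rw [HH, if_neg hk.not_ge, h3]
  ring

def FP : Filter (ℕ × ℕ) := comap Prod.fst atTop

def FE : Filter (ℕ × ℕ) where
  sets := {A | ∀ l : ℕ, ∀ᶠ k : ℕ in atTop, {m | (k, m) ∉ A}.encard * (l + 1 : ℕ) ≤ k}
  univ_sets := fun l => by simp
  sets_of_superset := fun h hs l => (h l).mono fun k hk => by
    refine le_trans (mul_le_mul_left (encard_le_encard ?_) _) hk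
    exact fun _ hi h => hi (hs h)
  inter_sets := fun {A B} h h' l => ((h (2 * l + 1)).and (h' (2 * l + 1))).mono fun k ⟨a, b⟩ => by
    have h1 := encard_union_le {m | (k, m) ∉ A} {m | (k, m) ∉ B}
    have h2 : {m | (k, m) ∉ A ∩ B} = {m | (k, m) ∉ A} ∪ {m | (k, m) ∉ B} := by
      ext m; simp only [mem_ofPred_eq, mem_inter_iff, not_and_or, mem_union]
    rw [h2]
    refine (mul_le_mul_left h1 _).trans ?_
    generalize {m | (k, m) ∉ A}.encard = p at a
    generalize {m | (k, m) ∉ B}.encard = q at b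
    lift p to ℕ using (by rintro rfl; simp at a)
    lift q to ℕ using (by rintro rfl; simp at b)
    norm_cast at a b ⊢
    nlinarith

theorem tP (g : ℕ × ℕ → ℝ) : Tendsto g FP (𝓝 0) ↔ ∀ e > 0, ∀ᶠ k in atTop, ∀ m, |g (k, m)| ≤ e := by
  simp only [Metric.nhds_basis_closedBall.tendsto_right_iff, FP, eventually_comap, Metric.mem_closedBall,
    dist_zero_right, Real.norm_eq_abs]
  refine forall₂_congr fun e _ => eventually_congr (Eventually.of_forall fun k => ?_)
  exact ⟨fun h m => h _ rfl, by rintro h ⟨_, m⟩ rfl; exact h m⟩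

def El (l : ℕ) (g : ℕ × ℕ → ℝ) : Prop :=
  ∀ e > 0, ∀ᶠ k : ℕ in atTop, {m | ta l + e < |g (k, m)|}.encard * (l + 1 : ℕ) ≤ k

theorem El.inv {l : ℕ} {g g' : ℕ × ℕ → ℝ} (h : El l g) (h' : Tendsto (g' - g) FP (𝓝 0)) : El l g' :=
  fun e he => ((h (e / 2) (by linarith)).and ((tP _).1 h' (e / 2) (by linarith))).mono fun k ⟨a, b⟩ =>
    (mul_le_mul_left (encard_le_encard fun m hm => by
      have h1 := b m
      have h2 := abs_sub_abs_le_abs_sub (g' (k, m)) (g (k, m))
      simp only [Pi.sub_apply, mem_ofPred_eq] at h1 hm ⊢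
      linarith) _).trans a

theorem tE (g : ℕ × ℕ → ℝ) : Tendsto g FE (𝓝 0) ↔ ∀ l, El l g := by
  rw [Metric.nhds_basis_closedBall.tendsto_right_iff]
  constructor
  · intro h l e he
    refine (h e he l).mono fun k hk => (mul_le_mul_left (encard_le_encard fun m hm => ?_) _).trans hk
    have := ta0 l
    simp only [Metric.mem_closedBall, dist_zero_right, Real.norm_eq_abs, mem_ofPred_eq, not_le] at hm ⊢
    linarith
  · intro h e he l
    obtain ⟨n, hn⟩ := exists_nat_one_div_lt (half_pos he)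
    refine (h (n + l) (e / 2) (half_pos he)).mono fun k hk => (mul_le_mul'
      (encard_le_encard fun m hm => ?_) (by norm_cast; omega)).trans hk
    have : ta (n + l) ≤ 1 / ((n : ℝ) + 1) :=
      one_div_le_one_div_of_le (by positivity) (by push_cast; linarith [l.cast_nonneg (α := ℝ)])
    simp only [Metric.mem_closedBall, dist_zero_right, Real.norm_eq_abs, mem_ofPred_eq, not_le] at hm ⊢
    linarith

noncomputable def Hg (l : ℕ) (g : ℕ × ℕ → ℝ) : ℕ × ℕ → ℝ := fun p => HH p.1 l (fun m => g (p.1, m)) p.2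

theorem G_A (l : ℕ) (g : ℕ × ℕ → ℝ) : El l (Hg l g) := fun e he => by
  filter_upwards [eventually_ge_atTop ((l + 1) * (l + 2))] with k hk
  refine (mul_le_mul_left ((encard_le_encard fun m hm => ?_).trans (H_A k l fun m => g (k, m))) _).trans ?_
  · exact lt_trans (lt_add_of_pos_right _ he) hm
  · norm_cast
    have := Nat.div_mul_le_self k (l + 2)
    have h2 : l + 1 ≤ k / (l + 2) := (Nat.le_div_iff_mul_le (by omega)).2 hk
    nlinarith

theorem G_B {l : ℕ} {g : ℕ × ℕ → ℝ} (h : El (l + 1) g) : Tendsto (g - Hg l g) FP (𝓝 0) := by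
  refine (tP _).2 fun e he => ?_
  have := ta1 l
  filter_upwards [h (mu l - ta (l + 1)) (by unfold mu; linarith), eventually_gt_atTop l] with k hk hl m
  have h1 := H_B hl (fun m => g (k, m)) (by simpa using hk) m
  simp [Hg, h1, he.le]

abbrev A := ℕ × ℕ × ℕ

def FX : Filter A := ⨆ n, map (Prod.mk n) FP

def FY : Filter (ℕ × ℕ ⊕ A) := map Sum.inl FE ⊔ map Sum.inr FX

theorem tx (g : A → ℝ) : Tendsto g FX (𝓝 0) ↔ ∀ n, Tendsto (fun x => g (n, x)) FP (𝓝 0) := by
  simp only [FX, tendsto_iSup, tendsto_map'_iff]; rfl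

theorem ty (h : ℕ × ℕ ⊕ A → ℝ) : Tendsto h FY (𝓝 0) ↔
    Tendsto (fun j => h (.inl j)) FE (𝓝 0) ∧ Tendsto (fun x => h (.inr x)) FX (𝓝 0) := by
  simp only [FY, tendsto_sup, tendsto_map'_iff]; rfl

theorem lemA : ∃ e : (A → ℝ) ≃ₜ (ℕ × ℕ ⊕ A → ℝ), ∀ u, Tendsto u FX (𝓝 0) ↔ Tendsto (e u) FY (𝓝 0) := by
  choose e he using fun k => tri k (HH k) (H_c k) fun l hl v => funext fun m => if_pos hl
  let θ : (A → ℝ) ≃ₜ (A → ℝ) :=
    ⟨⟨fun t x => e x.2.1 (fun l m => t (l, x.2.1, m)) x.1 x.2.2,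
      fun t x => (e x.2.1).symm (fun l m => t (l, x.2.1, m)) x.1 x.2.2,
      fun t => funext fun x => congrFun₂ ((e x.2.1).symm_apply_apply fun l m => t (l, x.2.1, m)) x.1 x.2.2,
      fun t => funext fun x => congrFun₂ ((e x.2.1).apply_symm_apply fun l m => t (l, x.2.1, m)) x.1 x.2.2⟩,
      by fun_prop, by fun_prop⟩
  have hθ : ∀ t l, (fun x => θ t (l, x)) = (fun x => t (l, x)) - Hg l fun x => t (l + 1, x) :=
    fun t l => funext fun x => congrFun (he x.1 (fun l m => t (l, x.1, m)) l) x.2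
  let η : (A → ℝ) ≃ₜ (ℕ × ℕ ⊕ A → ℝ) :=
    ⟨⟨fun t => Sum.elim (fun x => t (0, x)) fun x => t (x.1 + 1, x.2) - t (0, x.2),
      fun s x => Nat.casesOn x.1 (s (.inl x.2)) fun l => s (.inr (l, x.2)) + s (.inl x.2),
      fun t => funext fun ⟨l, x⟩ => by cases l <;> simp, fun s => funext fun x => by cases x <;> simp⟩,
      continuous_pi fun x => by cases x <;> simp <;> fun_prop,
      continuous_pi fun ⟨l, x⟩ => by cases l <;> simp <;> fun_prop⟩
  refine ⟨θ.symm.trans η, fun u => ?_⟩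
  obtain ⟨t, rfl⟩ := θ.surjective u
  have : (θ.symm.trans η) (θ t) = η t := congrArg η (θ.symm_apply_apply t)
  rw [this, ty, tx, tx, tE]
  simp only [hθ]
  set s : ℕ → ℕ × ℕ → ℝ := fun l x => t (l, x)
  change (∀ l, Tendsto (s l - Hg l (s (l + 1))) FP (𝓝 0)) ↔
    (∀ l, El l (s 0)) ∧ ∀ l, Tendsto (s (l + 1) - s 0) FP (𝓝 0)
  constructor
  · intro h
    have h0 : ∀ l, El l (s l) := fun l => (G_A l _).inv (h l)
    have h1 : ∀ l, Tendsto (s l - s 0) FP (𝓝 0) := fun l => by
      induction l with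
      | zero => rw [sub_self]; exact tendsto_const_nhds
      | succ l ih =>
        have := (ih.sub (h l)).add (G_B (h0 (l + 1)))
        simp only [sub_self, add_zero] at this
        exact this.congr fun x => by simp
    refine ⟨fun l => (h0 l).inv ?_, fun l => h1 _⟩
    simpa using (h1 l).neg.congr (f₂ := s 0 - s l) fun x => by simp
  · rintro ⟨h1, h2⟩ l
    have h3 : Tendsto (s l - s 0) FP (𝓝 0) := by
      cases l with
      | zero => rw [sub_self]; exact tendsto_const_nhds
      | succ l => exact h2 l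
    have := (h3.sub (h2 l)).add (G_B ((h1 (l + 1)).inv (h2 l)))
    simp only [sub_self, add_zero] at this
    exact this.congr fun x => by simp

end Pool.Agent.H.MP_4d09b6
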