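import Pool.Agent.H.MP_4d09b6.A

set_option autoImplicit false
open Set Filter Topology TopologicalSpace

namespace Pool.Agent.H.MP_4d09b6

abbrev G {I : Type} (F : Filter I) := {u : I → ℝ // Tendsto u F (𝓝 0)}

theorem cl {I : Type} {F : Filter I} (φ : G F → ℝ) (h : UniformContinuous φ) :
    ∃ (K : Finset I) (c : ℝ), ∀ (f g : G F) (R : ℝ), 0 ≤ R → (∀ x ∈ K, |f.1 x - g.1 x| ≤ R) →
      |φ f - φ g| ≤ c * (R + 1) := by
  have h1 := h (Metric.dist_mem_uniformity one_pos)
  rw [mem_map, uniformity_subtype, uniformity_eq_comap_nhds_zero (I → ℝ), comap_comap, mem_comap] at h1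
  obtain ⟨U, hU, h1⟩ := h1
  rw [nhds_pi, Filter.mem_pi] at hU
  obtain ⟨K, hK, t, ht, hU⟩ := hU
  obtain ⟨d, hd, hd'⟩ : ∃ d > 0, ∀ x ∈ K, Metric.closedBall (0 : ℝ) d ⊆ t x :=
    (((eventually_all_finite hK).2 fun x _ => eventually_closedBall_subset (ht x)).filter_mono
      nhdsWithin_le_nhds |>.and self_mem_nhdsWithin (f := 𝓝[>] 0)).exists.imp fun _ h => ⟨h.2, h.1⟩
  have h2 : ∀ f g : G F, (∀ x ∈ K, |f.1 x - g.1 x| ≤ d) → |φ f - φ g| ≤ 1 := fun f g h =>
    (show dist (φ f) (φ g) < 1 from h1 (show (f, g) ∈ _ from hU fun x hx => hd' x hx (by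
      simpa [abs_sub_comm] using h x hx))).le
  have h3 : ∀ n : ℕ, ∀ f g : G F, (∀ x ∈ K, |f.1 x - g.1 x| ≤ n * d) → |φ f - φ g| ≤ n + 1 := by
    intro n
    induction n with
    | zero => exact fun f g h => by simpa using h2 f g fun x hx => (h x hx).trans (by simpa using hd.le)
    | succ n ih =>
      intro f g h
      have hn : (0 : ℝ) < n + 1 := by positivity
      let u : G F := ⟨fun x => f.1 x + (g.1 x - f.1 x) / (n + 1), by
        simpa using f.2.add ((g.2.sub f.2).div_const ((n : ℝ) + 1))⟩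
      have a := h2 f u fun x hx => by
        have := h x hx
        push_cast at this
        simp only [u, sub_add_cancel_left, abs_neg, abs_div, abs_of_pos hn]
        rw [div_le_iff₀ hn, abs_sub_comm]; linarith
      have b := ih u g fun x hx => by
        have := h x hx
        push_cast at this
        have e : u.1 x - g.1 x = (f.1 x - g.1 x) * n / (n + 1) := by simp only [u]; field_simp; ring
        rw [e, abs_div, abs_mul, abs_of_pos hn, Nat.abs_cast, div_le_iff₀ hn]
        nlinarith [n.cast_nonneg (α := ℝ)]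
      have := abs_sub_le (φ f) (φ u) (φ g)
      push_cast; linarith
  refine ⟨hK.toFinset, 1 / d + 2, fun f g R hR h => ?_⟩
  have h4 := h3 ⌈R / d⌉₊ f g fun x hx => (h x (hK.mem_toFinset.2 hx)).trans
    ((div_le_iff₀ hd).1 (Nat.le_ceil _))
  have h5 := Nat.ceil_lt_add_one (div_nonneg hR hd.le)
  have h6 : 0 ≤ 1 / d := by positivity
  rw [div_eq_mul_one_div] at h5
  rw [div_eq_mul_one_div] at h4
  nlinarith

theorem sup {I : Type} {F : Filter I} {B : Set I} (hB : Bᶜ ∈ F) (u : I → ℝ) (h : ∀ x ∉ B, u x = 0) :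
    Tendsto u F (𝓝 0) := tendsto_const_nhds.congr' (mem_of_superset hB fun x hx => (h x hx).symm)

theorem ba {I Z : Type} [Countable I] [TopologicalSpace Z] {F : Filter I} {B : Set I} (hB : Bᶜ ∈ F)
    (L : G F → Z) (hL : Continuous L) (D : ℕ → Set Z) (hD : ∀ n, IsClosed (D n)) (hc : ∀ z, ∃ n, z ∈ D n) :
    ∃ (n : ℕ) (u : I → ℝ) (K : Finset I), ∀ f : G F, (∀ x ∉ B, f.1 x = 0) →
      (∀ x ∈ K, x ∈ B → f.1 x = u x) → L f ∈ D n := by
  classical
  let ι : (I → ℝ) → G F := fun u => ⟨B.indicator u, sup hB _ fun x hx => indicator_of_notMem hx _⟩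
  have hι : Continuous ι := Continuous.subtype_mk (continuous_pi fun x => by
    by_cases h : x ∈ B
    · simpa [h] using continuous_apply x
    · simpa [h] using continuous_const) _
  obtain ⟨n, u, hu⟩ := nonempty_interior_of_iUnion_of_closed (f := fun n => (L ∘ ι) ⁻¹' D n)
    (fun n => (hD n).preimage (hL.comp hι)) (eq_univ_of_forall fun u => mem_iUnion.2 (hc _))
  rw [mem_interior_iff_mem_nhds, nhds_pi, Filter.mem_pi] at hu
  obtain ⟨K, hK, t, ht, hu⟩ := hu
  refine ⟨n, u, hK.toFinset, fun f h1 h2 => ?_⟩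
  have h3 : ι (B.piecewise f.1 u) = f := Subtype.ext (funext fun x => by
    by_cases h : x ∈ B <;> simp [ι, h, h1])
  rw [← h3]
  refine hu fun x hx => ?_
  by_cases h : x ∈ B
  · rw [piecewise_eq_of_mem _ _ _ h, h2 x (hK.mem_toFinset.2 hx) h]
    exact mem_of_mem_nhds (ht x)
  · rw [piecewise_eq_of_notMem _ _ _ h]
    exact mem_of_mem_nhds (ht x)

theorem FE1 (S : Set (ℕ × ℕ)) (h : InjOn Prod.fst S) : Sᶜ ∈ FE := fun l => by
  filter_upwards [eventually_ge_atTop (l + 1)] with k hk
  refine (mul_le_mul_left (encard_le_one_iff.2 fun a b ha hb => ?_) _).trans (by rw [one_mul]; exact_mod_cast hk)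
  simpa using h (not_not.1 ha) (not_not.1 hb) rfl

theorem tall (S : Set (ℕ × ℕ)) (hS : S.Infinite) : ∃ T ⊆ S, T.Infinite ∧ Tᶜ ∈ FE := by
  by_cases h : (Prod.fst '' S).Finite
  · refine ⟨S, Subset.rfl, hS, fun l => ?_⟩
    obtain ⟨b, hb⟩ := h.bddAbove
    filter_upwards [eventually_gt_atTop b] with k hk
    have : {m | (k, m) ∉ Sᶜ} = ∅ :=
      eq_empty_of_forall_notMem fun m hm => hk.not_ge (hb ⟨(k, m), not_not.1 hm, rfl⟩)
    rw [this]
    simp
  · obtain ⟨T, h1, h2⟩ := exists_subset_bijOn S Prod.fst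
    exact ⟨T, h1, fun hT => h (h2.image_eq ▸ hT.image _), FE1 T h2.injOn⟩

theorem mX (S : Set A) : S ∈ FX ↔ ∀ n, ∀ᶠ k in atTop, ∀ m, (n, k, m) ∈ S := by
  simp only [FX, mem_iSup, mem_map, FP]
  refine forall_congr' fun n => eventually_comap.trans (eventually_congr (Eventually.of_forall fun k => ?_))
  exact ⟨fun h m => h _ rfl, by rintro h ⟨_, m⟩ rfl; exact h m⟩

theorem FXc : FX ≤ cofinite := le_cofinite_iff_compl_singleton_mem.2 fun x => (mX _).2 fun _ =>
  (eventually_gt_atTop x.2.1).mono fun _ hk _ h => hk.ne (by rw [← show _ = x from h])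

theorem FYc : FY ≤ cofinite :=
  sup_le (Sum.inl_injective.tendsto_cofinite.mono_left
    (le_cofinite_iff_compl_singleton_mem.2 fun _ => FE1 _ (injOn_singleton _ _)))
    (Sum.inr_injective.tendsto_cofinite.mono_left FXc)

theorem nu (Φ : G FY ≃ᵤ G FX) : False := by
  classical
  choose K c hK using fun y => cl (fun f => (Φ.symm f).1 y)
    ((Pi.uniformContinuous_proj _ y).comp (uniformContinuous_subtype_val.comp Φ.symm.uniformContinuous))
  choose L d hL using fun x => cl (fun f => (Φ f).1 x)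
    ((Pi.uniformContinuous_proj _ x).comp (uniformContinuous_subtype_val.comp Φ.uniformContinuous))
  let up : G FY → ℕ × ℕ → ℝ → G FY := fun g y t => ⟨Function.update g.1 (.inl y) t,
    g.2.congr' (mem_of_superset (FYc (finite_singleton (Sum.inl y)).compl_mem_cofinite) fun z hz =>
      (Function.update_of_ne hz _ _).symm)⟩
  let o : G FY := ⟨0, tendsto_const_nhds⟩
  let bd : ℕ × ℕ → A → Prop := fun y x => ∃ b, ∀ t, |(Φ (up o y t)).1 x| ≤ b
  have s1 : ∀ i, ∃ n, ∀ y, ∀ x ∈ K (.inl y), x.1 = i → n ≤ x.2.1 → bd y x := fun i => by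
    by_contra! h
    choose y x h1 h2 h3 h4 using h
    have h5 : (range y).Infinite := fun hf => by
      obtain ⟨b, hb⟩ := ((hf.biUnion fun z _ => (K (.inl z)).finite_toSet).image fun x => x.2.1).bddAbove
      exact absurd ((h3 (b + 1)).trans (hb ⟨_, mem_biUnion (mem_range_self _) (h1 _), rfl⟩)) (by omega)
    obtain ⟨T, t1, t2, t3⟩ := tall _ h5
    obtain ⟨n, u, S, hS⟩ := ba (F := FY) (B := Sum.inl '' T) ⟨mem_map.2 (mem_of_superset t3
      fun z hz ⟨w, hw, e⟩ => hz (Sum.inl_injective e ▸ hw)),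
      mem_map.2 (univ_mem' fun z ⟨w, _, e⟩ => Sum.inl_ne_inr e)⟩ Φ Φ.continuous
      (fun n => {f | ∀ k, n ≤ k → ∀ m, |f.1 (i, k, m)| ≤ 1}) (fun n => by
        simp only [ofPred_forall]
        exact isClosed_iInter fun k => isClosed_iInter fun _ => isClosed_iInter fun m =>
          isClosed_le ((continuous_apply _).comp continuous_subtype_val).abs continuous_const)
      fun f => eventually_atTop.1 ((tP _).1 ((tx _).1 f.2 i) 1 one_pos)
    obtain ⟨z, hz, hz'⟩ := t2.exists_notMem_finite (((finite_Iio n).image y).union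
      (S.finite_toSet.preimage Sum.inl_injective.injOn))
    obtain ⟨k, rfl⟩ := t1 hz
    have hk : n ≤ k := not_lt.1 fun h => hz' (Or.inl ⟨k, h, rfl⟩)
    let g0 : G FY := ⟨fun w => if w ∈ S ∧ w ∈ Sum.inl '' T then u w else 0, sup (B := S)
      (FYc S.finite_toSet.compl_mem_cofinite) _ fun w hw => if_neg fun h => hw h.1⟩
    refine h4 k ⟨1 + d (x k) * (∑ w ∈ S, |u w| + 1), fun t => ?_⟩
    have a := hS (up g0 (y k) t) (fun w hw => by
      simp only [up, g0]
      rw [Function.update_of_ne (by rintro rfl; exact hw ⟨_, hz, rfl⟩), if_neg fun h => hw h.2])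
      (fun w hw hw' => by
        simp only [up, g0]
        rw [Function.update_of_ne (by rintro rfl; exact hz' (Or.inr hw)), if_pos ⟨hw, hw'⟩])
      (x k).2.1 (hk.trans (h3 k)) (x k).2.2
    have s0 : 0 ≤ ∑ w ∈ S, |u w| := Finset.sum_nonneg fun _ _ => abs_nonneg _
    have b := hL (x k) (up o (y k) t) (up g0 (y k) t) _ s0 fun w _ => by
      by_cases hw : w = .inl (y k)
      · simpa [up, hw] using s0
      · simp only [up, g0, o, Function.update_of_ne hw, Pi.zero_apply, zero_sub, abs_neg]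
        split_ifs with h
        · exact Finset.single_le_sum (f := fun w => |u w|) (fun _ _ => abs_nonneg _) h.1
        · simpa using s0
    rw [← h2 k] at a
    have := abs_sub_abs_le_abs_sub ((Φ (up o (y k) t)).1 (x k)) ((Φ (up g0 (y k) t)).1 (x k))
    linarith
  choose σ hσ using s1
  let B : Set A := {x | x.2.1 < σ x.1}
  have hB : Bᶜ ∈ FX := (mX _).2 fun n => (eventually_ge_atTop (σ n)).mono fun k hk m h => hk.not_gt h
  obtain ⟨k, u, S0, hS⟩ := ba hB Φ.symm Φ.symm.continuous
    (fun n => {g | ∀ k, n ≤ k → ∀ T : Finset ℕ, T.card = k + 1 → ∃ m ∈ T, |g.1 (.inl (k, m))| ≤ 1})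
    (fun n => by
      simp only [ofPred_forall]
      refine isClosed_iInter fun k => isClosed_iInter fun _ => isClosed_iInter fun T =>
        isClosed_iInter fun _ => ?_
      have : {g : G FY | ∃ m ∈ T, |g.1 (.inl (k, m))| ≤ 1} =
          ⋃ m ∈ T, {g : G FY | |g.1 (.inl (k, m))| ≤ 1} := by ext; simp
      rw [this]
      exact isClosed_biUnion_finset fun m _ =>
        isClosed_le ((continuous_apply _).comp continuous_subtype_val).abs continuous_const)
    fun g => by
      obtain ⟨n, hn⟩ := eventually_atTop.1 (((ty _).1 g.2).1 (Metric.closedBall_mem_nhds 0 one_pos) 0)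
      refine ⟨n, fun k hk T hT => ?_⟩
      by_contra! h
      have h1 := (mul_le_mul_left (encard_le_encard (s := T) fun m hm => by simpa using h m hm) _).trans
        (hn k hk)
      rw [encard_coe_eq_coe_finsetCard, hT] at h1
      norm_cast at h1
      omega
  let π : G FX → G FX := fun f => ⟨fun x => if x ∈ B then (if x ∈ S0 then u x else f.1 x) else 0,
    sup hB _ fun x hx => if_neg hx⟩
  have key : ∀ j : ℕ, ∃ (g : G FY) (T : Finset ℕ) (S : Finset (ℕ × ℕ ⊕ A)) (R : ℝ), T.card = j ∧ 0 ≤ R ∧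
      (∀ z, |g.1 z| ≤ R) ∧ ∀ g' : G FY, (∀ z ∈ S, g'.1 z = g.1 z) →
        ∀ m ∈ T, 1 < |(Φ.symm (π (Φ g'))).1 (.inl (k, m))| := by
    intro j
    induction j with
    | zero => exact ⟨o, ∅, ∅, 0, rfl, le_rfl, by simp [o], by simp⟩
    | succ j ih =>
      obtain ⟨g, T, S, R, h1, h2, h3, h4⟩ := ih
      have hi : Function.Injective fun m : ℕ => (Sum.inl (k, m) : ℕ × ℕ ⊕ A) := fun a b h => by
        simpa using h
      obtain ⟨m, hm⟩ := (T.finite_toSet.union (((S ∪ S0.biUnion L).finite_toSet).preimage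
        hi.injOn)).exists_notMem
      simp only [mem_union, Finset.mem_coe, mem_preimage, Finset.mem_union, Finset.mem_biUnion,
        not_or, not_exists, not_and] at hm
      have h5 : ∀ x, ∃ M, x ∈ K (.inl (k, m)) → ∀ t (g' : G FY),
          (∀ z ∈ L x, g'.1 z = (up g (k, m) t).1 z) → |(π (Φ g')).1 x - (Φ g').1 x| ≤ M := fun x => by
        by_cases hx : x ∈ B ∧ x ∉ S0
        · exact ⟨0, fun _ _ _ _ => by simp [π, hx.1, hx.2]⟩
        by_cases hx' : x ∈ K (.inl (k, m)); swap
        · exact ⟨0, fun h => absurd h hx'⟩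
        obtain ⟨b, hb⟩ : bd (k, m) x := by
          by_cases h : x ∈ B
          · refine ⟨|(Φ o).1 x| + d x * (0 + 1), fun t => ?_⟩
            have := hL x (up o (k, m) t) o 0 le_rfl fun z hz => by
              simp only [up]
              rw [Function.update_of_ne (by rintro rfl; exact hm.2.2 x (not_not.1 fun h' => hx ⟨h, h'⟩) hz)]
              simp
            linarith [abs_sub_abs_le_abs_sub ((Φ (up o (k, m) t)).1 x) ((Φ o).1 x)]
          · exact hσ _ _ x hx' rfl (not_lt.1 h)
        refine ⟨|u x| + (b + d x * (R + 1)), fun _ t g' hg => ?_⟩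
        have a := hL x g' (up o (k, m) t) R h2 fun z hz => by
          rw [hg z hz]
          by_cases hw : z = .inl (k, m)
          · simpa [up, hw] using h2
          · simpa [up, o, hw] using h3 z
        have e : |(π (Φ g')).1 x| ≤ |u x| := by
          simp only [π]
          split_ifs with p q
          · rfl
          · exact absurd ⟨p, q⟩ hx
          · simp
        linarith [abs_sub ((π (Φ g')).1 x) ((Φ g').1 x), hb t,
          abs_sub_abs_le_abs_sub ((Φ g').1 x) ((Φ (up o (k, m) t)).1 x)]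
      choose M hM using h5
      set M' := ∑ x ∈ K (.inl (k, m)), |M x|
      have M0 : 0 ≤ M' := Finset.sum_nonneg fun _ _ => abs_nonneg _
      set t := c (.inl (k, m)) * (M' + 1) + 2
      refine ⟨up g (k, m) t, insert m T, insert (.inl (k, m)) (S ∪ (K (.inl (k, m))).biUnion L), max R |t|,
        by rw [Finset.card_insert_of_notMem hm.1, h1], le_max_of_le_left h2, fun z => ?_, fun g' hg a ha => ?_⟩
      · by_cases hw : z = .inl (k, m)
        · simp [up, hw]
        · simpa [up, hw] using Or.inl (h3 z)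
      rcases Finset.mem_insert.1 ha with rfl | ha
      · have a1 := hK (.inl (k, a)) (π (Φ g')) (Φ g') M' M0 fun x hx =>
          (hM x hx t g' fun z hz => hg z (Finset.mem_insert_of_mem (Finset.mem_union_right _
            (Finset.mem_biUnion.2 ⟨x, hx, hz⟩)))).trans ((le_abs_self _).trans
              (Finset.single_le_sum (f := fun x => |M x|) (fun _ _ => abs_nonneg _) hx))
        rw [Φ.symm_apply_apply, hg _ (Finset.mem_insert_self _ _)] at a1
        simp only [up, Function.update_self] at a1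
        have := abs_le.1 a1
        exact lt_abs.2 (Or.inl (by linarith))
      · refine h4 g' (fun z hz => ?_) a ha
        rw [hg z (Finset.mem_insert_of_mem (Finset.mem_union_left _ hz))]
        exact Function.update_of_ne (by rintro rfl; exact hm.2.1 hz) _ _
  obtain ⟨g, T, S, R, h1, -, -, h4⟩ := key (k + 1)
  obtain ⟨m, hm, h5⟩ := hS (π (Φ g)) (fun x hx => if_neg hx) (fun x hx hx' => by simp [π, hx, hx'])
    k le_rfl T h1
  exact not_le.2 (h4 g (fun _ _ => rfl) m hm) h5

end Pool.Agent.H.MP_4d09b6
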